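import Pool.Agent.Q328.VD.Window

/-!
# Motives with good reduction outside `T` are rare near every integral point of a family, uniformly in `T`

Let `M_t` be a family of motives over `ℚ` with integral parameters `t ∈ ℤ ^ d`, and suppose that there is a polynomial `D` (a
discriminant) such that the quadratic field `ℚ(√D(t))` is unramified at the primes `p` at which `M_t` has good reduction, up to finitely many
`p`. Examples:
* `M_t = H^n(X_t)`, `X_t` the hypersurface of even dimension `n` and degree `m` in the projective space with the coefficients `t`; by the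
  theorem of T. Saito the determinant of `H^n(X_t, ℚ_ℓ(n/2))` is the character of `ℚ(√± disc(X_t))`;
* `M_t = H^1` of the Jacobian of the hyperelliptic curve `y ^ 2 = f(x)` with the coefficients `t`; the field of the points of order
  two is the splitting field of `f`, which contains the square root of the discriminant; in particular all elliptic curves.

Q1 implies (under the theorem of Torelli) that only finitely many of the `X_t` have good reduction outside a given finite set `T` of
prime numbers, up to isomorphism.  This is not known for hypersurfaces; for Jacobians (Faltings) there is no effective bound.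

**Theorem.** Let `P` be a set of prime numbers with at least `y ^ θ` elements up to `y` for large `y` and `κ > 0`, such that for `p ∈ P` the
number of the residue classes `x` modulo `p` at which `D(x)` is a square different from zero, and the number of those at which
`D(x)` is not a square, are at least `κ p ^ d` (by the theorem of Lang and Weil this is true for all large primes and
`κ = 1 / 3`, if `D` is not a constant times a square). Let an ARBITRARY integral point be given, whose coordinates have at most `K` digits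
in base `b`. Choose for each coordinate `r` of the `K` positions and replace the digits at these positions by arbitrary other digits; let
`C log K ≤ r ≤ K / 2`. Then **for every finite set `T` of at most `a log K` prime numbers, the motive `M_t` at the new point `t` has good
reduction outside `T` (or `D(t) = 0`) for at most a proportion `K ^ (-B)` of the choices.** Here `a` and `B` are arbitrary and `C`, `K₀`
depend only on the family, `P`, `κ`, `θ`, `b`, `a` and `B`; the bound is uniform in `T`, in the point and in the new digits.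

Good reduction at `p` is used in the weak form that for one prime number `ℓ ≠ p` the `ℓ`-adic representation is unramified at `p`.
The number `a log K` of primes has the right order: a member has about `log K` primes of bad reduction.

The proof: if `M_t` has good reduction outside `T`, then `D(t)` is the product of a square and one of the `2 ^ (O(1) + #T) = K ^ O(1)` squarefree
numbers with prime factors in `T` (or exceptional ones). For each of them `D(t)` avoids half of the residue classes, for all `p ∈ P`. The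
law for the residues, modulo many small primes, of vectors of which few digits are changed
(`Pool.Agent.Q328.VD.window`) is uniform in these sets.
-/

set_option autoImplicit false

namespace Pool.Agent.Results.MP_78e9a5_nt.FewDigitRamification

open Module

/-- The residue class modulo `p` of an integral point `t`. -/
def red {d : ℕ} (p : ℕ) (t : Fin d → ℤ) : Fin d → ZMod p := fun j => (t j : ZMod p)

section family

variable (Γ : Type) [Group Γ] (V : ℕ → Type) [∀ ℓ, AddCommGroup (V ℓ)] [∀ (ℓ : ℕ) [Fact ℓ.Prime], Module ℚ_[ℓ] (V ℓ)]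

/-- A family of motives `M_t` over a number field with Galois group `Γ`, for `t ∈ ℤ^d`: `ρ t ℓ` is the action of `Γ` on the `ℓ`-adic
realization `V ℓ` of `M_t`, `inertia p` is the inertia group of a place above `p`, and `disc` is a polynomial such that for all primes
`p` but the finitely many in `special`: if `p` divides `disc(t) ≠ 0` exactly an odd number of times, then the `ℓ`-adic representations, `ℓ ≠ p`,
of `M_t` are ramified at `p`. -/
structure Family (d : ℕ) where
  ρ : (Fin d → ℤ) → ∀ (ℓ : ℕ) [Fact ℓ.Prime], Representation ℚ_[ℓ] Γ (V ℓ)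
  inertia : ℕ → Subgroup Γ
  disc : MvPolynomial (Fin d) ℤ
  special : Finset ℕ
  ramified : ∀ p : ℕ, p.Prime → p ∉ special → ∀ t : Fin d → ℤ, MvPolynomial.eval t disc ≠ 0 →
    Odd (padicValInt p (MvPolynomial.eval t disc)) → ∀ (ℓ : ℕ) [Fact ℓ.Prime], p ≠ ℓ → ∃ g ∈ inertia p, ρ t ℓ g ≠ 1

variable {Γ V}

/-- For at least one prime number `ℓ ≠ p` the `ℓ`-adic representation of `M_t` is unramified at `p`. -/
def Good {d : ℕ} (A : Family Γ V d) (t : Fin d → ℤ) (p : ℕ) : Prop :=
  ∃ (ℓ : ℕ) (_ : Fact ℓ.Prime), p ≠ ℓ ∧ ∀ g ∈ A.inertia p, A.ρ t ℓ g = 1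

end family

/-- The residue classes modulo `p` at which the value of the polynomial is a square different from zero. -/
def squares {d : ℕ} (D : MvPolynomial (Fin d) ℤ) (p : ℕ) : Set (Fin d → ZMod p) :=
  {x | MvPolynomial.aeval x D ≠ 0 ∧ IsSquare (MvPolynomial.aeval x D)}

/-- The residue classes modulo `p` at which the value of the polynomial is not a square. -/
def nonsquares {d : ℕ} (D : MvPolynomial (Fin d) ℤ) (p : ℕ) : Set (Fin d → ZMod p) :=
  {x | ¬ IsSquare (MvPolynomial.aeval x D)}

/-- The integers `s i * N i` (`s i` is a sign), after the digits of `N i` in base `b` at the positions in `S i` have been replaced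
by the digits `f i`. -/
def changed (b K : ℕ) {d : ℕ} (s : Fin d → ℤ) (N : Fin d → ℕ) (f : Fin d → ℕ → ℕ) (S : Fin d → Finset ℕ) : Fin d → ℤ :=
  fun i => s i * ((∑ j ∈ Finset.range K, (if j ∈ S i then f i j else N i / b ^ j % b) * b ^ j : ℕ) : ℤ)

/-- `s i` are signs, `N i` has at most `K` digits, and `f i j` is a digit different from the digit number `j` of `N i`. -/
def Admissible (b K : ℕ) {d : ℕ} (s : Fin d → ℤ) (N : Fin d → ℕ) (f : Fin d → ℕ → ℕ) : Prop :=
  (∀ i, s i = 1 ∨ s i = -1) ∧ (∀ i, N i < b ^ K) ∧ ∀ i j, f i j < b ∧ f i j ≠ N i / b ^ j % b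

/-- The choices of `r` of the `K` positions for each of `d` integers; their number is `C(K, r) ^ d`. -/
def choices (d r K : ℕ) : Finset (Fin d → Finset ℕ) :=
  Fintype.piFinset (fun _ => Finset.powersetCard r (Finset.range K))

/-- An integer all of whose prime divisors outside `T` have even multiplicity is a square times a squarefree number with prime divisors
in `T`. -/
lemma square_class (D : ℤ) (T : Finset ℕ) (h : D ≠ 0 → ∀ p : ℕ, p.Prime → p ∉ T → ¬ Odd (padicValInt p D)) :
    ∃ σ ∈ ({1, -1} : Finset ℤ), ∃ R ∈ T.powerset, ∃ n : ℤ, D = σ * (∏ q ∈ R, (q : ℤ)) * n ^ 2 := by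
  by_cases hD : D = 0
  · exact ⟨1, by simp, ∅, by simp, 0, by simp [hD]⟩
  · obtain ⟨a, c, hac, hsq⟩ := Nat.sq_mul_squarefree D.natAbs
    have ha0 : a ≠ 0 := hsq.ne_zero
    have hc0 : c ≠ 0 := by
      rintro rfl
      apply hD
      rw [← Int.natAbs_eq_zero, ← hac]
      simp
    refine ⟨D.sign, ?_, a.primeFactors, ?_, c, ?_⟩
    · rcases lt_or_gt_of_ne hD with h1 | h1
      · rw [Int.sign_eq_neg_one_of_neg h1]; simp
      · rw [Int.sign_eq_one_of_pos h1]; simp
    · rw [Finset.mem_powerset]
      intro q hq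
      have hqp := Nat.prime_of_mem_primeFactors hq
      have : Fact q.Prime := ⟨hqp⟩
      by_contra hqT
      apply h hD q hqp hqT
      have h1 : padicValNat q a = 1 := by
        have h2 : 1 ≤ padicValNat q a := one_le_padicValNat_of_dvd ha0 (Nat.dvd_of_mem_primeFactors hq)
        have h3 : a.factorization q ≤ 1 := (Nat.squarefree_iff_factorization_le_one ha0).1 hsq q
        rw [Nat.factorization_def a hqp] at h3
        omega
      unfold padicValInt
      rw [← hac, padicValNat.mul (pow_ne_zero _ hc0) ha0, padicValNat.pow, h1]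
      exact ⟨padicValNat q c, rfl⟩
    · have h1 : (∏ q ∈ a.primeFactors, (q : ℤ)) = a := by
        rw [← Nat.cast_prod, Nat.prod_primeFactors_of_squarefree hsq]
      rw [h1]
      have h2 : D = D.sign * (D.natAbs : ℤ) := (Int.sign_mul_natAbs D).symm
      conv_lhs => rw [h2, ← hac]
      push_cast
      ring

/-- The values in the square class of `u` avoid one of the two sets of residue classes. -/
lemma avoid {d : ℕ} (D : MvPolynomial (Fin d) ℤ) (p : ℕ) (hp : p.Prime) (u n : ℤ) (t : Fin d → ℤ)
    (h : MvPolynomial.eval t D = u * n ^ 2) :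
    (IsSquare (u : ZMod p) → red p t ∉ nonsquares D p) ∧ (¬ IsSquare (u : ZMod p) → red p t ∉ squares D p) := by
  have : Fact p.Prime := ⟨hp⟩
  have h1 : MvPolynomial.aeval (red p t) D = (u : ZMod p) * (n : ZMod p) ^ 2 := by
    have h2 : MvPolynomial.aeval (red p t) D = ((MvPolynomial.eval t D : ℤ) : ZMod p) := by
      have h3 := MvPolynomial.eval₂_comp_right (Int.castRingHom (ZMod p)) (RingHom.id ℤ) t D
      rw [MvPolynomial.aeval_def]
      have h4 : (algebraMap ℤ (ZMod p)) = (Int.castRingHom (ZMod p)) := RingHom.ext_int _ _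
      rw [h4]
      have h5 : MvPolynomial.eval t D = MvPolynomial.eval₂ (RingHom.id ℤ) t D := rfl
      rw [h5]
      have h6 : ((MvPolynomial.eval₂ (RingHom.id ℤ) t D : ℤ) : ZMod p) =
        (Int.castRingHom (ZMod p)) (MvPolynomial.eval₂ (RingHom.id ℤ) t D) := rfl
      rw [h6, MvPolynomial.hom_eval₂]
      rfl
    rw [h2, h]
    push_cast
    rfl
  refine ⟨fun hu hmem => hmem ?_, fun hu hmem => ?_⟩
  · rw [h1]
    exact hu.mul (IsSquare.sq _)
  · obtain ⟨h2, w, hw⟩ := hmem
    rw [h1] at h2 hw
    have hn : (n : ZMod p) ≠ 0 := by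
      intro h0
      apply h2
      rw [h0]
      ring
    apply hu
    refine ⟨w / n, ?_⟩
    field_simp
    rw [hw]
    ring

open Classical in
/-- **Members with good reduction outside `T` are rare near every integral point, few digits being changed, uniformly in `T`.** -/
theorem result {Γ : Type} [Group Γ] {V : ℕ → Type} [∀ ℓ, AddCommGroup (V ℓ)] [∀ (ℓ : ℕ) [Fact ℓ.Prime], Module ℚ_[ℓ] (V ℓ)]
    {d : ℕ} (A : Family Γ V d) (P : ℕ → Prop) (κ θ : ℝ) (hκ : 0 < κ) (hθ : 0 < θ)
    (hP : ∀ p, P p → p.Prime ∧ κ * (p : ℝ) ^ d ≤ ((squares A.disc p).ncard : ℝ) ∧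
      κ * (p : ℝ) ^ d ≤ ((nonsquares A.disc p).ncard : ℝ))
    (hcount : ∃ y₀ : ℕ, ∀ y : ℕ, y₀ ≤ y → (y : ℝ) ^ θ ≤ (({p : ℕ | P p ∧ p ≤ y}).ncard : ℝ)) :
    ∀ (b : ℕ), 2 ≤ b → ∀ a B : ℝ, 0 ≤ a → 0 < B →
      ∃ C : ℝ, 0 < C ∧ ∃ K₀ : ℕ, ∀ K : ℕ, K₀ ≤ K → ∀ r : ℕ, C * Real.log K ≤ r → 2 * r ≤ K →
      -- every integral point with coordinates with at most `K` digits and all new digits
      ∀ (s : Fin d → ℤ) (N : Fin d → ℕ) (f : Fin d → ℕ → ℕ), Admissible b K s N f →
      -- every set of at most `a log K` primes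
      ∀ T : Finset ℕ, (T.card : ℝ) ≤ a * Real.log K →
        (((choices d r K).filter (fun S => MvPolynomial.eval (changed b K s N f S) A.disc = 0 ∨
          ∀ p : ℕ, p.Prime → p ∉ T → Good A (changed b K s N f S) p)).card : ℝ) ≤
            (K : ℝ) ^ (-B) * (K.choose r : ℝ) ^ d := by
  intro b hb a B ha hB
  obtain ⟨C, hC, K₀, h⟩ := Pool.Agent.Q328.VD.window 0 b hb (B + a + 1) 1 κ θ (by positivity) one_pos hκ hθ d P
    (fun p hp => (hP p hp).1) hcount
  obtain ⟨K₁, hK₁⟩ := exists_nat_ge (Real.exp (A.special.card + 1))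
  refine ⟨C, hC, K₀ + K₁ + 1, fun K hK r hr hrK s N f hA T hT => ?_⟩
  have hK0 : (0 : ℝ) < K := by exact_mod_cast (by omega : 0 < K)
  obtain ⟨T', hT'⟩ : ∃ T' : Finset ℕ, T' = T ∪ A.special := ⟨_, rfl⟩
  -- one square class
  have key : ∀ u : ℤ, (((choices d r K).filter (fun S => ∃ n : ℤ,
      MvPolynomial.eval (changed b K s N f S) A.disc = u * n ^ 2)).card : ℝ) ≤
      (K : ℝ) ^ (-(B + a + 1)) * (K.choose r : ℝ) ^ d := by
    intro u
    have h2 := h K (by omega) r hr hrK (fun p => if IsSquare (u : ZMod p) then nonsquares A.disc p else squares A.disc p)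
      (fun p hp _ _ => by
        have h3 := (hP p hp).2
        show κ * (p : ℝ) ^ d ≤ (Nat.card (if IsSquare (u : ZMod p) then nonsquares A.disc p else squares A.disc p :
          Set (Fin d → ZMod p)) : ℝ)
        rw [Nat.card_coe_set_eq]
        split_ifs
        · exact h3.2
        · exact h3.1) N hA.2.1 s hA.1 f hA.2.2
    refine le_trans (Nat.cast_le.2 (Finset.card_le_card fun S hS => ?_)) h2
    rw [Finset.mem_filter] at hS ⊢
    refine ⟨hS.1, ?_⟩
    obtain ⟨n, hn⟩ := hS.2
    have hempty : {p : ℕ | P p ∧ (K : ℝ) ^ ((1 : ℝ) * θ / 4) < p ∧ (p : ℝ) ≤ (K : ℝ) ^ (1 : ℝ) ∧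
        red p (changed b K s N f S) ∈
          (if IsSquare (u : ZMod p) then nonsquares A.disc p else squares A.disc p : Set (Fin d → ZMod p))} = ∅ := by
      rw [Set.eq_empty_iff_forall_notMem]
      rintro p ⟨hp, -, -, hmem⟩
      obtain ⟨h4, h5⟩ := avoid A.disc p (hP p hp).1 u n _ hn
      by_cases hu : IsSquare (u : ZMod p)
      · rw [if_pos hu] at hmem
        exact h4 hu hmem
      · rw [if_neg hu] at hmem
        exact h5 hu hmem
    have h7 : Set.ncard {p : ℕ | P p ∧ (K : ℝ) ^ ((1 : ℝ) * θ / 4) < p ∧ (p : ℝ) ≤ (K : ℝ) ^ (1 : ℝ) ∧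
        red p (changed b K s N f S) ∈
          (if IsSquare (u : ZMod p) then nonsquares A.disc p else squares A.disc p : Set (Fin d → ZMod p))} ≤ 0 := by
      rw [hempty, Set.ncard_empty]
    exact h7
  -- all square classes
  obtain ⟨J, hJ⟩ : ∃ J : ℤ × Finset ℕ → Finset (Fin d → Finset ℕ), J = fun v : ℤ × Finset ℕ => (choices d r K).filter (fun S => ∃ n : ℤ,
    MvPolynomial.eval (changed b K s N f S) A.disc = (v.1 * ∏ q ∈ v.2, (q : ℤ)) * n ^ 2) := ⟨_, rfl⟩
  have hsub : (choices d r K).filter (fun S => MvPolynomial.eval (changed b K s N f S) A.disc = 0 ∨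
      ∀ p : ℕ, p.Prime → p ∉ T → Good A (changed b K s N f S) p) ⊆
      (({1, -1} : Finset ℤ) ×ˢ T'.powerset).biUnion J := by
    intro S hS
    rw [Finset.mem_filter] at hS
    obtain ⟨σ, hσ, R, hR, n, hn⟩ := square_class (MvPolynomial.eval (changed b K s N f S) A.disc) T' (by
      intro h0 p hp hpT hodd
      rw [hT', Finset.mem_union, not_or] at hpT
      rcases hS.2 with h1 | h1
      · exact h0 h1
      · obtain ⟨ℓ, hℓ, hne, hg⟩ := h1 p hp hpT.1
        obtain ⟨g, hgI, hgρ⟩ := A.ramified p hp hpT.2 _ h0 hodd ℓ hne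
        exact hgρ (hg g hgI))
    rw [Finset.mem_biUnion]
    refine ⟨(σ, R), Finset.mem_product.2 ⟨hσ, hR⟩, ?_⟩
    rw [hJ, Finset.mem_filter]
    exact ⟨hS.1, n, hn⟩
  have hcard : (((({1, -1} : Finset ℤ) ×ˢ T'.powerset).biUnion J).card : ℝ) ≤
      (2 * 2 ^ T'.card : ℝ) * ((K : ℝ) ^ (-(B + a + 1)) * (K.choose r : ℝ) ^ d) := by
    calc (((({1, -1} : Finset ℤ) ×ˢ T'.powerset).biUnion J).card : ℝ)
        ≤ ((∑ v ∈ (({1, -1} : Finset ℤ) ×ˢ T'.powerset), (J v).card : ℕ) : ℝ) :=
          Nat.cast_le.2 Finset.card_biUnion_le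
      _ ≤ ∑ v ∈ (({1, -1} : Finset ℤ) ×ˢ T'.powerset), ((K : ℝ) ^ (-(B + a + 1)) * (K.choose r : ℝ) ^ d) := by
          push_cast
          refine Finset.sum_le_sum fun v _ => ?_
          rw [hJ]
          exact key _
      _ = (2 * 2 ^ T'.card : ℝ) * ((K : ℝ) ^ (-(B + a + 1)) * (K.choose r : ℝ) ^ d) := by
          rw [Finset.sum_const, nsmul_eq_mul, Finset.card_product, Finset.card_powerset]
          have : ({1, -1} : Finset ℤ).card = 2 := by decide
          rw [this]
          push_cast
          ring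
  have hpow : (2 * 2 ^ T'.card : ℝ) ≤ (K : ℝ) ^ (a + 1) := by
    have h1 : (T'.card : ℝ) ≤ a * Real.log K + A.special.card := by
      have h2 : T'.card ≤ T.card + A.special.card := by rw [hT']; exact Finset.card_union_le _ _
      have h3 : (T'.card : ℝ) ≤ (T.card : ℝ) + A.special.card := by exact_mod_cast h2
      linarith
    have h2 : (2 : ℝ) ≤ Real.exp 1 := by
      have := Real.add_one_le_exp (1 : ℝ)
      linarith
    have h3 : (2 * 2 ^ T'.card : ℝ) ≤ Real.exp (T'.card + 1) := by
      have h4 : (2 * 2 ^ T'.card : ℝ) = 2 ^ (T'.card + 1) := by ring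
      rw [h4]
      calc (2 : ℝ) ^ (T'.card + 1) ≤ (Real.exp 1) ^ (T'.card + 1) := pow_le_pow_left₀ (by norm_num) h2 _
        _ = Real.exp (T'.card + 1) := by rw [← Real.exp_nat_mul]; push_cast; ring_nf
    have h5 : Real.exp (A.special.card + 1) ≤ K := hK₁.trans (by exact_mod_cast (by omega : K₁ ≤ K))
    calc (2 * 2 ^ T'.card : ℝ) ≤ Real.exp (T'.card + 1) := h3
      _ ≤ Real.exp (a * Real.log K + (A.special.card + 1)) := Real.exp_le_exp.2 (by linarith)
      _ = (K : ℝ) ^ a * Real.exp (A.special.card + 1) := by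
          rw [Real.exp_add, Real.rpow_def_of_pos hK0, mul_comm a]
      _ ≤ (K : ℝ) ^ a * K := mul_le_mul_of_nonneg_left h5 (Real.rpow_nonneg hK0.le _)
      _ = (K : ℝ) ^ (a + 1) := by rw [Real.rpow_add hK0, Real.rpow_one]
  refine (Nat.cast_le.2 (Finset.card_le_card hsub)).trans (hcard.trans ?_)
  have h8 : (0 : ℝ) ≤ (K : ℝ) ^ (-(B + a + 1)) * (K.choose r : ℝ) ^ d := by positivity
  calc (2 * 2 ^ T'.card : ℝ) * ((K : ℝ) ^ (-(B + a + 1)) * (K.choose r : ℝ) ^ d)
      ≤ (K : ℝ) ^ (a + 1) * ((K : ℝ) ^ (-(B + a + 1)) * (K.choose r : ℝ) ^ d) := mul_le_mul_of_nonneg_right hpow h8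
    _ = (K : ℝ) ^ (-B) * (K.choose r : ℝ) ^ d := by
        rw [← mul_assoc, ← Real.rpow_add hK0]
        congr 2
        ring

end Pool.Agent.Results.MP_78e9a5_nt.FewDigitRamification
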