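import Pool.Agent.Q77.NP.Pow

/-!
# Motives with good reduction outside `T` are rare among the members of a family near powers, for all `T` at once

Let `M_t` be a family of motives over a number field with integral parameters `t ∈ ℤ ^ d`, and suppose that there is a polynomial `D`
(a discriminant) such that the quadratic field `ℚ(√D(t))` is unramified at the primes `p` at which `M_t` has good reduction, up
to finitely many `p`. Examples:
* `M_t = H^n(X_t)`, `X_t` the hypersurface of even dimension `n` in the projective space with the coefficients `t`; by the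
  theorem of T. Saito the determinant of `H^n(X_t, ℚ_ℓ(n/2))` is the character of `ℚ(√± disc(X_t))`;
* `M_t = H^1` of the Jacobian of the hyperelliptic curve `y ^ 2 = f(x)` with the coefficients `t`;
* all families with one parameter (`d = 1`) of this kind, for example `f(x) = g(x) + t`.

Q1 implies (under the theorem of Torelli) that only finitely many of the `X_t` have good reduction outside a given finite set `T` of
prime numbers, up to isomorphism.  This is not known for hypersurfaces; for Jacobians (Faltings) there is no effective bound.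

**Theorem.** Let `P` be a set of prime numbers with at least `y ^ θ` elements up to `y` for large `y` and `κ > 0`, such that for `p ∈ P` the
number of the residue classes `x` modulo `p` at which `D(x)` is a square different from zero, and the number of those at which
`D(x)` is not a square, are at least `κ p ^ d` (by the theorem of Lang and Weil this is true for all large primes and
`κ = 1 / 3`, if `D` is not a constant times a square). Let `e_l > 1` be exponents which are not integers, `w_l ≠ 0`; let `i` run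
through `{1, ..., x} ^ m` (for example `m = 1`: a curve), and consider ALL integral points `t = a ± n` with
`|n_l - β_l - w_l i(μ l) ^ (e_l)| ≤ y ^ W`, where the integral vector `a`, the signs and the real shifts `β_l` are arbitrary. Then for
all but at most `x ^ m / y ^ A` of the `i`, ALL these `t` have the following property for all `z` from `y` to `x ^ c`: `D(t) ≠ 0`, and **for
every set `T` of primes whose product is at most `z ^ B`, `M_t` has bad reduction at a prime outside `T`**. Here `A`, `B` and `W` are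
arbitrary, and `c > 0` and the bound `y₀ ≤ y` depend on them, on the family, `P`, `κ`, `θ`, `e`, `w` and `μ` only.

So for `z = x ^ c` and all but `x ^ (m - c A)` of the `i` the product of the primes of bad reduction of every member `M_t` near the
point is larger than `x ^ (c B)`. For `d = 1` the parameters are `t = a + w i ^ e + O(y ^ W)`.

Good reduction at `p` is used in the weak form that for one prime number `ℓ ≠ p` the `ℓ`-adic representation is unramified at `p`.

The proof: if `M_t` has good reduction outside `T`, then `D(t) = u n ^ 2` with `|u| ≤ z ^ (B + 1)`. For each of these `u` the residues of `t`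
avoid a set with the density `κ` at least for all `p ∈ P`; the law for functions of the residues of the tuples near powers (`Q56.WL`)
is uniform in `u`.
-/

set_option autoImplicit false

namespace Pool.Agent.Results.MP_78e9a5_nt.MembersNearPowers

open Module
open Finset (range Icc)
open Pool.Agent.Q56.WL (Setting ForAlmostAll)
open Pool.Agent.Q235.FD (Sets avg avg_zmod avg_const)

/-- The residue class modulo `p` of an integral point `t`. -/
def red {d : ℕ} (p : ℕ) (t : Fin d → ℤ) : Fin d → ZMod p := fun j => (t j : ZMod p)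

section family

variable (Γ : Type) [Group Γ] (V : ℕ → Type) [∀ ℓ, AddCommGroup (V ℓ)] [∀ (ℓ : ℕ) [Fact ℓ.Prime], Module ℚ_[ℓ] (V ℓ)]

/-- A family of motives `M_t` over a number field with Galois group `Γ`, for `t ∈ ℤ^d`: `ρ t ℓ` is the action of `Γ` on the `ℓ`-adic
realization `V ℓ` of `M_t`, `inertia p` is the inertia group of a place above `p`, and `disc` is a polynomial such that for all primes
`p` but the finitely many in `special`: if `p` divides `disc(t) ≠ 0` exactly an odd number of times, then the `ℓ`-adic representations, `ℓ ≠ p`,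
of `M_t` are ramified at `p`. -/
structure Family (d : ℕ) where
  ρ : (Fin d → ℤ) → ∀ (ℓ : ℕ) [Fact ℓ.Prime], Representation ℚ_[ℓ] Γ (V ℓ)
  inertia : ℕ → Subgroup Γ
  disc : MvPolynomial (Fin d) ℤ
  special : Finset ℕ
  ramified : ∀ p : ℕ, p.Prime → p ∉ special → ∀ t : Fin d → ℤ, MvPolynomial.eval t disc ≠ 0 →
    Odd (padicValInt p (MvPolynomial.eval t disc)) → ∀ (ℓ : ℕ) [Fact ℓ.Prime], p ≠ ℓ → ∃ g ∈ inertia p, ρ t ℓ g ≠ 1

variable {Γ V}

/-- For at least one prime number `ℓ ≠ p` the `ℓ`-adic representation of `M_t` is unramified at `p`. -/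
def Good {d : ℕ} (A : Family Γ V d) (t : Fin d → ℤ) (p : ℕ) : Prop :=
  ∃ (ℓ : ℕ) (_ : Fact ℓ.Prime), p ≠ ℓ ∧ ∀ g ∈ A.inertia p, A.ρ t ℓ g = 1

end family

/-- The residue classes modulo `p` at which the value of the polynomial is a square different from zero. -/
def squares {d : ℕ} (D : MvPolynomial (Fin d) ℤ) (p : ℕ) : Set (Fin d → ZMod p) :=
  {x | MvPolynomial.aeval x D ≠ 0 ∧ IsSquare (MvPolynomial.aeval x D)}

/-- The residue classes modulo `p` at which the value of the polynomial is not a square. -/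
def nonsquares {d : ℕ} (D : MvPolynomial (Fin d) ℤ) (p : ℕ) : Set (Fin d → ZMod p) :=
  {x | ¬ IsSquare (MvPolynomial.aeval x D)}

/-- An integer all of whose prime divisors outside `T` have even multiplicity is a square times a squarefree number with prime divisors
in `T`. -/
lemma square_class (D : ℤ) (T : Finset ℕ) (h : D ≠ 0 → ∀ p : ℕ, p.Prime → p ∉ T → ¬ Odd (padicValInt p D)) :
    ∃ σ ∈ ({1, -1} : Finset ℤ), ∃ R ∈ T.powerset, ∃ n : ℤ, D = σ * (∏ q ∈ R, (q : ℤ)) * n ^ 2 := by
  by_cases hD : D = 0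
  · exact ⟨1, by simp, ∅, by simp, 0, by simp [hD]⟩
  · obtain ⟨a, c, hac, hsq⟩ := Nat.sq_mul_squarefree D.natAbs
    have ha0 : a ≠ 0 := hsq.ne_zero
    have hc0 : c ≠ 0 := by
      rintro rfl
      apply hD
      rw [← Int.natAbs_eq_zero, ← hac]
      simp
    refine ⟨D.sign, ?_, a.primeFactors, ?_, c, ?_⟩
    · rcases lt_or_gt_of_ne hD with h1 | h1
      · rw [Int.sign_eq_neg_one_of_neg h1]; simp
      · rw [Int.sign_eq_one_of_pos h1]; simp
    · rw [Finset.mem_powerset]
      intro q hq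
      have hqp := Nat.prime_of_mem_primeFactors hq
      have : Fact q.Prime := ⟨hqp⟩
      by_contra hqT
      apply h hD q hqp hqT
      have h1 : padicValNat q a = 1 := by
        have h2 : 1 ≤ padicValNat q a := one_le_padicValNat_of_dvd ha0 (Nat.dvd_of_mem_primeFactors hq)
        have h3 : a.factorization q ≤ 1 := (Nat.squarefree_iff_factorization_le_one ha0).1 hsq q
        rw [Nat.factorization_def a hqp] at h3
        omega
      unfold padicValInt
      rw [← hac, padicValNat.mul (pow_ne_zero _ hc0) ha0, padicValNat.pow, h1]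
      exact ⟨padicValNat q c, rfl⟩
    · have h1 : (∏ q ∈ a.primeFactors, (q : ℤ)) = a := by
        rw [← Nat.cast_prod, Nat.prod_primeFactors_of_squarefree hsq]
      rw [h1]
      have h2 : D = D.sign * (D.natAbs : ℤ) := (Int.sign_mul_natAbs D).symm
      conv_lhs => rw [h2, ← hac]
      push_cast
      ring

/-- The values in the square class of `u` avoid one of the two sets of residue classes. -/
lemma avoid {d : ℕ} (D : MvPolynomial (Fin d) ℤ) (p : ℕ) (hp : p.Prime) (u n : ℤ) (t : Fin d → ℤ)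
    (h : MvPolynomial.eval t D = u * n ^ 2) :
    (IsSquare (u : ZMod p) → red p t ∉ nonsquares D p) ∧ (¬ IsSquare (u : ZMod p) → red p t ∉ squares D p) := by
  have : Fact p.Prime := ⟨hp⟩
  have h1 : MvPolynomial.aeval (red p t) D = (u : ZMod p) * (n : ZMod p) ^ 2 := by
    have h2 : MvPolynomial.aeval (red p t) D = ((MvPolynomial.eval t D : ℤ) : ZMod p) := by
      have h3 := MvPolynomial.eval₂_comp_right (Int.castRingHom (ZMod p)) (RingHom.id ℤ) t D
      rw [MvPolynomial.aeval_def]
      have h4 : (algebraMap ℤ (ZMod p)) = (Int.castRingHom (ZMod p)) := RingHom.ext_int _ _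
      rw [h4]
      have h5 : MvPolynomial.eval t D = MvPolynomial.eval₂ (RingHom.id ℤ) t D := rfl
      rw [h5]
      have h6 : ((MvPolynomial.eval₂ (RingHom.id ℤ) t D : ℤ) : ZMod p) =
        (Int.castRingHom (ZMod p)) (MvPolynomial.eval₂ (RingHom.id ℤ) t D) := rfl
      rw [h6, MvPolynomial.hom_eval₂]
      rfl
    rw [h2, h]
    push_cast
    rfl
  refine ⟨fun hu hmem => hmem ?_, fun hu hmem => ?_⟩
  · rw [h1]
    exact hu.mul (IsSquare.sq _)
  · obtain ⟨h2, w, hw⟩ := hmem
    rw [h1] at h2 hw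
    have hn : (n : ZMod p) ≠ 0 := by
      intro h0
      apply h2
      rw [h0]
      ring
    apply hu
    refine ⟨w / n, ?_⟩
    field_simp
    rw [hw]
    ring

/-- The point `a ± n`, the signs being given by `s`. -/
def point {d : ℕ} (a : Fin d → ℤ) (s : Fin d → ℤˣ) (n : Fin d → ℕ) : Fin d → ℤ := fun l => a l + (s l : ℤ) * n l

/-- The discriminant of `M_t` is not zero, and for every set `T` of primes whose product is at most `H`, `M_t` has bad reduction
at a prime outside `T`. -/
def BadOutside {Γ : Type} [Group Γ] {V : ℕ → Type} [∀ ℓ, AddCommGroup (V ℓ)] [∀ (ℓ : ℕ) [Fact ℓ.Prime], Module ℚ_[ℓ] (V ℓ)]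
    {d : ℕ} (A : Family Γ V d) (H : ℕ) (t : Fin d → ℤ) : Prop :=
  MvPolynomial.eval t A.disc ≠ 0 ∧ ∀ T : Finset ℕ, (∀ q ∈ T, q.Prime) → ∏ q ∈ T, q ≤ H →
    ∃ p : ℕ, p.Prime ∧ p ∉ T ∧ ¬ Good A t p

/-- the classes which are avoided by the values in the square class of `u` -/
def avoided {d : ℕ} (D : MvPolynomial (Fin d) ℤ) (u : ℤ) (p : ℕ) : Set (Fin d → ZMod p) :=
  {x | (IsSquare (u : ZMod p) ∧ x ∈ nonsquares D p) ∨ (¬ IsSquare (u : ZMod p) ∧ x ∈ squares D p)}

lemma avoided_ncard {d : ℕ} (D : MvPolynomial (Fin d) ℤ) (u : ℤ) (p : ℕ) (C : ℝ) (h1 : C ≤ ((squares D p).ncard : ℝ))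
    (h2 : C ≤ ((nonsquares D p).ncard : ℝ)) : C ≤ ((avoided D u p).ncard : ℝ) := by
  by_cases hu : IsSquare (u : ZMod p)
  · have : avoided D u p = nonsquares D p := by
      ext x
      simp [avoided, hu]
    rw [this]
    exact h2
  · have : avoided D u p = squares D p := by
      ext x
      simp [avoided, hu]
    rw [this]
    exact h1

open Classical in
/-- the indicator function of the points whose residue class is avoided -/
noncomputable def ind {d : ℕ} (D : MvPolynomial (Fin d) ℤ) (t : ℤ × ((Fin d → ℤ) × (Fin d → ℤˣ))) (p : ℕ) (n : Fin d → ℕ) : ℝ :=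
  if red p (point t.2.1 t.2.2 n) ∈ avoided D t.1 p then 1 else 0

lemma ind_nonneg {d : ℕ} (D : MvPolynomial (Fin d) ℤ) (t : ℤ × ((Fin d → ℤ) × (Fin d → ℤˣ))) (p : ℕ) (n : Fin d → ℕ) :
    0 ≤ ind D t p n := by
  unfold ind
  split_ifs <;> norm_num

lemma ind_le {d : ℕ} (D : MvPolynomial (Fin d) ℤ) (t : ℤ × ((Fin d → ℤ) × (Fin d → ℤˣ))) (p : ℕ) (n : Fin d → ℕ) :
    ind D t p n ≤ 1 := by
  unfold ind
  split_ifs <;> norm_num

lemma ind_mod {d : ℕ} (D : MvPolynomial (Fin d) ℤ) (t : ℤ × ((Fin d → ℤ) × (Fin d → ℤˣ))) (p : ℕ) (n : Fin d → ℕ) :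
    ind D t p n = ind D t p (fun l => n l % p) := by
  unfold ind
  have : red p (point t.2.1 t.2.2 n) = red p (point t.2.1 t.2.2 (fun l => n l % p)) := by
    funext l
    unfold red point
    simp
  rw [this]

/-- the density of the avoided classes -/
lemma ind_avg {d : ℕ} (D : MvPolynomial (Fin d) ℤ) (t : ℤ × ((Fin d → ℤ) × (Fin d → ℤˣ))) {p : ℕ} (hp : p.Prime) :
    avg p (ind D t p) = ((avoided D t.1 p).ncard : ℝ) / (p : ℝ) ^ d := by
  classical
  have : Fact p.Prime := ⟨hp⟩
  obtain ⟨u, a, s⟩ := t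
  have e1 : ind D (u, (a, s)) p = fun n => (fun v : Fin d → ZMod p =>
      if (fun l => (a l : ZMod p) + ((s l : ℤ) : ZMod p) * v l) ∈ avoided D u p then (1 : ℝ) else 0)
        (fun l => (n l : ZMod p)) := by
    funext n
    unfold ind
    have : red p (point a s n) = fun l => (a l : ZMod p) + ((s l : ℤ) : ZMod p) * (n l : ZMod p) := by
      funext l
      unfold red point
      push_cast
      rfl
    rw [this]
  rw [e1, avg_zmod (fun v : Fin d → ZMod p =>
      if (fun l => (a l : ZMod p) + ((s l : ℤ) : ZMod p) * v l) ∈ avoided D u p then (1 : ℝ) else 0), Fintype.card_fin]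
  congr 1
  have hs2 : ∀ l, ((s l : ℤ) : ZMod p) * ((s l : ℤ) : ZMod p) = 1 := by
    intro l
    rw [← Int.cast_mul, ← Units.val_mul, Int.units_mul_self, Units.val_one, Int.cast_one]
  have hbij : Function.Bijective (fun v : Fin d → ZMod p => fun l => (a l : ZMod p) + ((s l : ℤ) : ZMod p) * v l) := by
    refine Function.bijective_iff_has_inverse.2 ⟨fun x l => ((s l : ℤ) : ZMod p) * (x l - a l), fun v => ?_, fun x => ?_⟩
    · funext l
      show ((s l : ℤ) : ZMod p) * ((a l : ZMod p) + ((s l : ℤ) : ZMod p) * v l - a l) = v l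
      calc ((s l : ℤ) : ZMod p) * ((a l : ZMod p) + ((s l : ℤ) : ZMod p) * v l - a l) =
            (((s l : ℤ) : ZMod p) * ((s l : ℤ) : ZMod p)) * v l := by ring
        _ = v l := by rw [hs2, one_mul]
    · funext l
      show (a l : ZMod p) + ((s l : ℤ) : ZMod p) * (((s l : ℤ) : ZMod p) * (x l - a l)) = x l
      calc (a l : ZMod p) + ((s l : ℤ) : ZMod p) * (((s l : ℤ) : ZMod p) * (x l - a l)) =
            (a l : ZMod p) + (((s l : ℤ) : ZMod p) * ((s l : ℤ) : ZMod p)) * (x l - a l) := by ring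
        _ = x l := by rw [hs2]; ring
  rw [Function.Bijective.sum_comp hbij (fun x => if x ∈ avoided D u p then (1 : ℝ) else 0), Finset.sum_boole]
  congr 1
  rw [← Set.ncard_coe_finset]
  congr 1
  ext x
  simp

/-- the centered indicator function -/
noncomputable def cen {d : ℕ} (D : MvPolynomial (Fin d) ℤ) (t : ℤ × ((Fin d → ℤ) × (Fin d → ℤˣ))) (p : ℕ) (n : Fin d → ℕ) : ℝ :=
  ind D t p n - avg p (ind D t p)

lemma avg_le_one {d : ℕ} (D : MvPolynomial (Fin d) ℤ) (t : ℤ × ((Fin d → ℤ) × (Fin d → ℤˣ))) {p : ℕ} (hp : p.Prime) :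
    0 ≤ avg p (ind D t p) ∧ avg p (ind D t p) ≤ 1 := by
  constructor
  · exact Pool.Agent.Q235.FD.avg_nonneg fun n => ind_nonneg D t p n
  · rw [← avg_const (L := Fin d) hp.one_lt.le 1]
    exact Pool.Agent.Q235.FD.avg_mono fun n => ind_le D t p n

open Classical in
/-- the primes of `P` up to `x` -/
noncomputable def primeSets (P : ℕ → Prop) (hP : ∀ p, P p → p.Prime) : Sets 0 where
  S := fun x => {(range (x + 1)).filter P}
  card := by intro x; simp
  prime := by
    intro x Q hQ p hp
    rw [Finset.mem_singleton] at hQ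
    rw [hQ, Finset.mem_filter, Finset.mem_range] at hp
    exact ⟨hP p hp.2, by omega⟩

/-- **Members with good reduction outside `T` are rare near powers, for all `T` at once.** See the introduction. -/
theorem result {Γ : Type} [Group Γ] {V : ℕ → Type} [∀ ℓ, AddCommGroup (V ℓ)] [∀ (ℓ : ℕ) [Fact ℓ.Prime], Module ℚ_[ℓ] (V ℓ)]
    {d : ℕ} (A : Family Γ V d) (P : ℕ → Prop) (κ θ : ℝ) (hκ : 0 < κ) (hθ : 0 < θ)
    (hP : ∀ p, P p → p.Prime ∧ κ * (p : ℝ) ^ d ≤ ((squares A.disc p).ncard : ℝ) ∧
      κ * (p : ℝ) ^ d ≤ ((nonsquares A.disc p).ncard : ℝ))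
    (hcount : ∃ y₀ : ℕ, ∀ y : ℕ, y₀ ≤ y → (y : ℝ) ^ θ ≤ (({p : ℕ | P p ∧ p ≤ y}).ncard : ℝ))
    (m : ℕ) (e w : Fin d → ℝ) (μ : Fin d → Fin m) (hs : Setting e w μ) (a W B : ℕ) :
    ForAlmostAll e w μ a W
      (fun (v : (Fin d → ℤ) × (Fin d → ℤˣ)) z n => BadOutside A (z ^ B) (point v.1 v.2 n)) := by
  classical
  obtain ⟨y₀, hy₀⟩ := hcount
  have main := Pool.Agent.Q77.NP.centered_fam hs (show 0 < θ / 4 by positivity) a W (B + 3)
    (primeSets P fun p hp => (hP p hp).1)
    (fun (v : (Fin d → ℤ) × (Fin d → ℤˣ)) x => Icc (-((x : ℤ) ^ (B + 1))) ((x : ℤ) ^ (B + 1)) ×ˢ {v})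
    (fun v x hx => by
      rw [Finset.card_product, Finset.card_singleton, mul_one, Int.card_Icc]
      have h1 : ((x : ℤ) ^ (B + 1) + 1 - -((x : ℤ) ^ (B + 1))).toNat = 2 * x ^ (B + 1) + 1 := by
        have : (x : ℤ) ^ (B + 1) + 1 - -((x : ℤ) ^ (B + 1)) = ((2 * x ^ (B + 1) + 1 : ℕ) : ℤ) := by
          push_cast
          ring
        rw [this, Int.toNat_natCast]
      rw [h1]
      have h2 : 1 ≤ x ^ (B + 1) := Nat.one_le_pow _ _ (by omega)
      have h3 : 4 ≤ x ^ 2 := by nlinarith
      calc 2 * x ^ (B + 1) + 1 ≤ x ^ (B + 1) * 4 := by omega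
        _ ≤ x ^ (B + 1) * x ^ 2 := Nat.mul_le_mul_left _ h3
        _ = x ^ (B + 3) := by rw [← pow_add])
    (cen A.disc)
    (fun t p n _ => by unfold cen; rw [ind_mod])
    (fun t p n hp => by
      have h1 := avg_le_one A.disc t hp
      have h2 := ind_nonneg A.disc t p n
      have h3 := ind_le A.disc t p n
      unfold cen
      rw [abs_le]
      constructor <;> linarith [h1.1, h1.2])
    (fun t p hp => by
      unfold cen
      have h1 : (fun n : Fin d → ℕ => ind A.disc t p n - avg p (ind A.disc t p)) =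
          fun n => ind A.disc t p n + (fun _ : Fin d → ℕ => -avg p (ind A.disc t p)) n := by
        funext n
        ring
      show avg p (fun n : Fin d → ℕ => ind A.disc t p n - avg p (ind A.disc t p)) = 0
      rw [h1, Pool.Agent.Q235.FD.avg_add, avg_const hp.one_lt.le]
      ring)
  -- large `z`
  have hev : ∀ᶠ z : ℕ in Filter.atTop, 1 / κ + 1 ≤ (z : ℝ) ^ (θ / 4) :=
    ((tendsto_rpow_atTop (show 0 < θ / 4 by positivity)).comp tendsto_natCast_atTop_atTop).eventually_ge_atTop _
  obtain ⟨z₁, hz₁⟩ := Filter.eventually_atTop.1 hev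
  obtain ⟨S₀, hS₀⟩ : ∃ S₀ : Finset ℕ, S₀ = A.special.filter Nat.Prime := ⟨_, rfl⟩
  refine main.mono (y₀ + z₁ + ∏ q ∈ S₀, q + 1) ?_
  rintro ⟨b, s⟩ z n hz hlaw
  show BadOutside A (z ^ B) (point b s n)
  have hz0 : (0 : ℝ) < z := by exact_mod_cast (by omega : 0 < z)
  obtain ⟨Pz, hPz⟩ : ∃ Pz : Finset ℕ, Pz = (range (z + 1)).filter P := ⟨_, rfl⟩
  have hcardP : (z : ℝ) ^ θ ≤ Pz.card := by
    have h1 := hy₀ z (by omega)
    have h2 : ({p : ℕ | P p ∧ p ≤ z} : Set ℕ) = ↑Pz := by
      ext p
      rw [hPz]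
      simp only [Set.mem_ofPred_eq, Finset.coe_filter, Finset.mem_range]
      constructor
      · rintro ⟨h3, h4⟩
        exact ⟨by omega, h3⟩
      · rintro ⟨h3, h4⟩
        exact ⟨h4, by omega⟩
    rw [h2, Set.ncard_coe_finset] at h1
    exact h1
  -- no value in the square class of a small number
  have key : ∀ u : ℤ, |u| ≤ (z : ℤ) ^ (B + 1) → ∀ k : ℤ, MvPolynomial.eval (point b s n) A.disc ≠ u * k ^ 2 := by
    intro u hu k hk
    have h1 := hlaw Pz (by rw [hPz]; exact Finset.mem_singleton_self _) (u, (b, s)) (by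
      rw [Finset.mem_product, Finset.mem_Icc]
      exact ⟨abs_le.1 hu, Finset.mem_singleton_self _⟩)
    have h2 : ∀ p ∈ Pz, cen A.disc (u, (b, s)) p n ≤ -κ := by
      intro p hp
      rw [hPz, Finset.mem_filter] at hp
      obtain ⟨hpp, hsq, hnsq⟩ := hP p hp.2
      have hp0 : (0 : ℝ) < (p : ℝ) ^ d := pow_pos (by exact_mod_cast hpp.pos) d
      have h3 : ind A.disc (u, (b, s)) p n = 0 := by
        unfold ind
        rw [if_neg]
        obtain ⟨g1, g2⟩ := avoid A.disc p hpp u k _ hk
        rintro (⟨h4, h5⟩ | ⟨h4, h5⟩)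
        · exact g1 h4 h5
        · exact g2 h4 h5
      have h4 : κ ≤ avg p (ind A.disc (u, (b, s)) p) := by
        rw [ind_avg A.disc _ hpp, le_div_iff₀ hp0]
        exact avoided_ncard A.disc u p _ hsq hnsq
      unfold cen
      rw [h3]
      linarith
    have h3 : κ * Pz.card ≤ |∑ p ∈ Pz, cen A.disc (u, (b, s)) p n| := by
      have h4 : ∑ p ∈ Pz, cen A.disc (u, (b, s)) p n ≤ ∑ p ∈ Pz, (-κ) := Finset.sum_le_sum h2
      rw [Finset.sum_const, nsmul_eq_mul] at h4
      have h5 := neg_le_abs (∑ p ∈ Pz, cen A.disc (u, (b, s)) p n)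
      linarith
    obtain ⟨N, hN⟩ : ∃ N : ℝ, N = (Pz.card : ℝ) := ⟨_, rfl⟩
    have hN1 : 1 ≤ N := by
      rw [hN]
      refine le_trans ?_ hcardP
      exact Real.one_le_rpow (by exact_mod_cast (by omega : 1 ≤ z)) hθ.le
    have hmax : ((max 1 Pz.card : ℕ) : ℝ) = N := by
      rw [hN]
      have : 1 ≤ Pz.card := by
        rw [hN] at hN1
        exact_mod_cast hN1
      rw [max_eq_right this]
    have h5 : κ * N ≤ Real.sqrt N * (z : ℝ) ^ (θ / 4) := by
      have h6 := h3.trans h1
      have h7 : Real.sqrt (max 1 (Pz.card : ℝ)) = Real.sqrt N := by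
        rw [← hN, max_eq_right hN1]
      rw [h7, ← hN] at h6
      exact h6
    have h6 : 0 < Real.sqrt N := Real.sqrt_pos.2 (by linarith)
    have h7 : κ * Real.sqrt N ≤ (z : ℝ) ^ (θ / 4) := by
      have h8 : N = Real.sqrt N * Real.sqrt N := (Real.mul_self_sqrt (by linarith)).symm
      have h9 : (κ * Real.sqrt N) * Real.sqrt N ≤ (z : ℝ) ^ (θ / 4) * Real.sqrt N := by
        calc (κ * Real.sqrt N) * Real.sqrt N = κ * N := by rw [mul_assoc, ← h8]
          _ ≤ Real.sqrt N * (z : ℝ) ^ (θ / 4) := h5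
          _ = _ := mul_comm _ _
      exact le_of_mul_le_mul_right h9 h6
    have h8 : (z : ℝ) ^ (θ / 4) * (z : ℝ) ^ (θ / 4) ≤ Real.sqrt N := by
      rw [← Real.rpow_add hz0]
      apply Real.le_sqrt_of_sq_le
      rw [← Real.rpow_natCast, ← Real.rpow_mul hz0.le]
      have : (θ / 4 + θ / 4) * ((2 : ℕ) : ℝ) = θ := by push_cast; ring
      rw [this, hN]
      exact hcardP
    have h9 := hz₁ z (by omega)
    have h10 : 0 < (z : ℝ) ^ (θ / 4) := Real.rpow_pos_of_pos hz0 _
    have h11 : κ * ((z : ℝ) ^ (θ / 4) * (z : ℝ) ^ (θ / 4)) ≤ (z : ℝ) ^ (θ / 4) :=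
      (mul_le_mul_of_nonneg_left h8 hκ.le).trans h7
    have h12 : κ * (z : ℝ) ^ (θ / 4) ≤ 1 := by
      rw [← mul_assoc] at h11
      have h13 : κ * (z : ℝ) ^ (θ / 4) * (z : ℝ) ^ (θ / 4) ≤ 1 * (z : ℝ) ^ (θ / 4) := by rw [one_mul]; exact h11
      exact le_of_mul_le_mul_right h13 h10
    have h13 : κ * (1 / κ + 1) ≤ 1 := (mul_le_mul_of_nonneg_left h9 hκ.le).trans h12
    have h14 : κ * (1 / κ + 1) = 1 + κ := by field_simp
    linarith
  -- conclusion
  have hz1 : (1 : ℤ) ≤ (z : ℤ) ^ (B + 1) := one_le_pow₀ (by exact_mod_cast (by omega : 1 ≤ z))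
  refine ⟨fun h0 => key 0 (by rw [abs_zero]; linarith) 0 (by rw [h0]; ring), fun T hT hprod => ?_⟩
  by_contra hcon
  push Not at hcon
  obtain ⟨σ, hσ, R, hR, k, hk⟩ := square_class (MvPolynomial.eval (point b s n) A.disc) (T ∪ S₀) (by
    intro h0 p hp hpT hodd
    rw [hS₀, Finset.mem_union, not_or, Finset.mem_filter, not_and'] at hpT
    obtain ⟨ℓ, hℓ, hne, hg⟩ := hcon p hp hpT.1
    obtain ⟨g, hgI, hgρ⟩ := A.ramified p hp (hpT.2 hp) _ h0 hodd ℓ hne
    exact hgρ (hg g hgI))
  refine key (σ * ∏ q ∈ R, (q : ℤ)) ?_ k hk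
  have hσ1 : |σ| = 1 := by
    rw [Finset.mem_insert, Finset.mem_singleton] at hσ
    rcases hσ with h | h <;> rw [h] <;> norm_num
  rw [abs_mul, hσ1, one_mul]
  have hposT : ∀ q ∈ T ∪ S₀, 1 ≤ q := by
    intro q hq
    rw [Finset.mem_union, hS₀, Finset.mem_filter] at hq
    rcases hq with h | h
    · exact (hT q h).one_lt.le
    · exact h.2.one_lt.le
  have h1 : ∏ q ∈ R, q ≤ ∏ q ∈ T ∪ S₀, q :=
    Finset.prod_le_prod_of_subset_of_one_le' (Finset.mem_powerset.1 hR) fun q hq _ => hposT q hq
  have h2 : ∏ q ∈ T ∪ S₀, q ≤ (∏ q ∈ T, q) * ∏ q ∈ S₀, q := by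
    rw [← Finset.prod_union_inter]
    refine Nat.le_mul_of_pos_right _ (Finset.prod_pos fun q hq => ?_)
    exact hposT q (Finset.mem_union_left _ (Finset.mem_inter.1 hq).1)
  have h3 : ∏ q ∈ R, q ≤ z ^ (B + 1) := by
    refine h1.trans (h2.trans ?_)
    rw [pow_succ]
    exact Nat.mul_le_mul hprod (by omega)
  have h4 : |∏ q ∈ R, (q : ℤ)| = ((∏ q ∈ R, q : ℕ) : ℤ) := by
    push_cast
    exact abs_of_nonneg (Finset.prod_nonneg fun q _ => Int.natCast_nonneg q)
  rw [h4]
  exact_mod_cast h3

end Pool.Agent.Results.MP_78e9a5_nt.MembersNearPowers
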