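import Pool.Agent.Y126.SH.AL

/-!
# Finiteness of polarized pure integral systems over `ℚ` with rigid monodromy

`n ≥ 1`, `w ≥ 0`, `S` a finite set of primes. There are only finitely many integral systems
`(T_ℓ)_ℓ` of rank `n` over `ℚ` up to isomorphism (of the `T_ℓ`, for all `ℓ`) which are pure of weight
`w`, polarized, with good reduction outside `S` and semistable reduction in `S`, and rigid: there are
two primes `p ≠ q` of good reduction whose Frobenius polynomials have no isotropic relation, and for
each `0 < d < n` some element of the Galois group acts unipotently (on every `V_ℓ`, and on `T_ℓ / ℓ` for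
almost all `ℓ`) with Jordan blocks such that `d` is not the sum of the sizes of some of them. No element
with a single Jordan block is required. For each such system there are only finitely many Galois stable
lattices in the adelic realisation up to multiplication by rational numbers.
-/

set_option autoImplicit false

namespace Pool.Agent.Results.MP_78e9a5_nt.RigidMonodromy

open Pool.Agent.Y126.SH Pool.Agent.Y126.SH.IntegralSystem

theorem result (n w : ℕ) (hn : 0 < n) (S : Finset ℕ) :
    (∃ (m : ℕ) (T : Fin m → IntegralSystem n), (∀ i, (T i).IsPure S w ∧ IsRigid S w (T i)) ∧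
      ∀ T' : IntegralSystem n, (T'.IsPure S w ∧ IsRigid S w T') → ∃ i, (T i).Isomorphic T') ∧
    ∀ T : IntegralSystem n, T.IsPure S w → IsRigid S w T →
      ∃ (m : ℕ) (L : Fin m → ∀ (ℓ : ℕ) [Fact ℓ.Prime], Submodule ℤ_[ℓ] (Fin n → ℚ_[ℓ])),
        (∀ i, T.IsLattice (L i)) ∧
          ∀ L' : (∀ (ℓ : ℕ) [Fact ℓ.Prime], Submodule ℤ_[ℓ] (Fin n → ℚ_[ℓ])), T.IsLattice L' →
            ∃ i, Proportional (L i) L' :=
  ⟨Pool.Agent.Y126.SH.finiteness n w hn S, fun _ hT hR => Pool.Agent.Y126.SH.lattices hn hT hR⟩

end Pool.Agent.Results.MP_78e9a5_nt.RigidMonodromy
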