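import Mathlib

/-!
# Finiteness of pure integral motives: unimodular motives suffice

For a number field `F`, a weight `w ≥ 0`, Hodge numbers `h = (h^{r, w-r})` and a finite set `S` of primes let
`Cls D F w h S` be the set of isomorphism classes of pure `ℤ`-motives of question Q1. Question Q1 says that it
is finite (`Q1`). A unimodular symmetric (or alternating) motive is a pure `ℤ`-motive `M = (M_ℚ, T)` for which
there is a symmetric (alternating) morphism `M_ℚ ⊗ M_ℚ → ℚ(-w)` inducing a perfect pairing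
`T × T → Ẑ(-w)`.

**Theorem.** Let `F₀` be a number field and `S₀` a finite set of primes. The following are equivalent.

1. Question Q1 has a positive answer for all `F`, `w`, `h`, `S`.
2. For all `F` containing `F₀`, all `S` containing `S₀`, all even `w` and all `h` there are only finitely
   many unimodular symmetric motives in the set of question Q1.
3. For all `F` containing `F₀`, all `S` containing `S₀`, all odd `w` and all `h` there are only finitely
   many unimodular alternating motives in the set of question Q1.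

This is an analogue of Zarhin's trick: `M ⊕ M^∨(-w)` is unimodular, symmetric and alternating. The
parity of the weight is changed by tensoring with `h^1(E)`, where `E` is the elliptic curve `X_0(11)` over
`ℚ`; it has good reduction outside `11` and semistable reduction at `11`.

The arithmetic input is the following finiteness (`finite_retract`). `Retract m M N` says that there are
morphisms `i : M → N`, `p : N → M` of pure `ℤ`-motives with `p i = m`. For given `N` and `m > 0` there are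
only finitely many such `M` up to isomorphism: `p(N)` has index dividing a power of `m` in `M`, it is
isomorphic to the image of `e = i p`, an element of the order `End(N)` in the finite-dimensional algebra
`End(N_ℚ)` with `e² = m e`, and there are finitely many such `e` up to conjugation by `Aut(N)` (Borel's
finiteness of class numbers; Jordan and Zassenhaus if the algebra is semisimple). So finiteness can be
transferred along constructions of which `M` is a retract: base change to `F'` (`m = [F' : F]`, Weil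
restriction), `M ⊕ M^∨(-w)` (`m = 1`) and `M ⊗ h^1(E)` (`m = 2`, the trace of `h^1(E) ⊗ h^1(E)^∨`).
-/

set_option autoImplicit false

namespace Pool.Agent.Results.MP_78e9a5_nt.UnimodularMotives

/-- Number fields, isomorphism classes of pure `ℤ`-motives and constructions with them. -/
structure Setting where
  /-- number fields -/
  Fld : Type
  /-- inclusion -/
  Le : Fld → Fld → Prop
  /-- isomorphism classes of pure `ℤ`-motives -/
  Mot : Fld → Type
  /-- the weight -/
  wt : ∀ {F : Fld}, Mot F → ℤ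
  /-- the Hodge numbers, `r ↦ h^{r, w-r}` -/
  hodge : ∀ {F : Fld}, Mot F → ℤ → ℕ
  /-- pure good reduction at the places outside `S`, semistable reduction at the places in `S` -/
  good : ∀ {F : Fld}, Finset ℕ → Mot F → Prop
  /-- there are `i : M → N` and `p : N → M` with `p i = m` -/
  Retract : ∀ {F : Fld}, ℕ → Mot F → Mot F → Prop
  /-- unimodular symmetric -/
  Sym : ∀ {F : Fld}, Mot F → Prop
  /-- unimodular alternating -/
  Alt : ∀ {F : Fld}, Mot F → Prop
  /-- base change -/
  base : ∀ {F F' : Fld}, Le F F' → Mot F → Mot F'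
  /-- Weil restriction (direct image) -/
  res : ∀ {F F' : Fld}, Le F F' → Mot F' → Mot F
  /-- `M ⊕ M^∨(-w)` -/
  hyp : ∀ {F : Fld}, Mot F → Mot F
  /-- `M ⊗ h^1(E)` -/
  tens : ∀ {F : Fld}, Mot F → Mot F
  /-- `M ⊗ h^1(E)^∨` -/
  cotens : ∀ {F : Fld}, Mot F → Mot F

/-- The known facts. -/
structure IsSetting (D : Setting) : Prop where
  /-- composite fields -/
  directed : ∀ F F₀ : D.Fld, ∃ F', D.Le F F' ∧ D.Le F₀ F'
  /-- see above -/
  finite_retract : ∀ (F : D.Fld) (N : D.Mot F) (m : ℕ), 0 < m → {M | D.Retract m M N}.Finite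
  good_mono : ∀ (F : D.Fld) (S S' : Finset ℕ) (M : D.Mot F), S ⊆ S' → D.good S M → D.good S' M
  base_wt : ∀ (F F' : D.Fld) (i : D.Le F F') (M : D.Mot F), D.wt (D.base i M) = D.wt M
  base_hodge : ∀ (F F' : D.Fld) (i : D.Le F F') (M : D.Mot F), D.hodge (D.base i M) = D.hodge M
  base_good : ∀ (F F' : D.Fld) (i : D.Le F F') (S : Finset ℕ) (M : D.Mot F),
    D.good S M → D.good S (D.base i M)
  base_retract : ∀ (F F' : D.Fld) (i : D.Le F F'), ∃ m : ℕ, 0 < m ∧
    ∀ M : D.Mot F, D.Retract m M (D.res i (D.base i M))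
  hyp_wt : ∀ (F : D.Fld) (M : D.Mot F), D.wt (D.hyp M) = D.wt M
  hyp_hodge : ∀ (F : D.Fld) (M : D.Mot F) (r : ℤ),
    D.hodge (D.hyp M) r = D.hodge M r + D.hodge M (D.wt M - r)
  hyp_good : ∀ (F : D.Fld) (S : Finset ℕ) (M : D.Mot F), D.good S M → D.good S (D.hyp M)
  hyp_sym : ∀ (F : D.Fld) (M : D.Mot F), D.Sym (D.hyp M)
  hyp_alt : ∀ (F : D.Fld) (M : D.Mot F), D.Alt (D.hyp M)
  hyp_retract : ∀ (F : D.Fld) (M : D.Mot F), D.Retract 1 M (D.hyp M)
  tens_wt : ∀ (F : D.Fld) (M : D.Mot F), D.wt (D.tens M) = D.wt M + 1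
  tens_hodge : ∀ (F : D.Fld) (M : D.Mot F) (r : ℤ),
    D.hodge (D.tens M) r = D.hodge M r + D.hodge M (r - 1)
  tens_good : ∀ (F : D.Fld) (S : Finset ℕ) (M : D.Mot F), 11 ∈ S → D.good S M → D.good S (D.tens M)
  tens_retract : ∀ (F : D.Fld) (M : D.Mot F), D.Retract 2 M (D.cotens (D.tens M))

variable (D : Setting)

/-- The set of question Q1. -/
def Cls (F : D.Fld) (w : ℤ) (h : ℤ → ℕ) (S : Finset ℕ) : Set (D.Mot F) :=
  {M | D.wt M = w ∧ D.hodge M = h ∧ D.good S M}

/-- The weight and the Hodge numbers are as in question Q1: `w ≥ 0`, and `h^{r, w-r} = 0` for `r < 0` and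
`r > w`. -/
def Eff (w : ℤ) (h : ℤ → ℕ) : Prop := 0 ≤ w ∧ ∀ r : ℤ, r < 0 ∨ w < r → h r = 0

/-- Question Q1 for all data. -/
def Q1 : Prop := ∀ (F : D.Fld) (w : ℤ) (h : ℤ → ℕ) (S : Finset ℕ), Eff w h → (Cls D F w h S).Finite

variable {D}

/-- transfer of finiteness -/
lemma finite_of {h : IsSetting D} {F F' : D.Fld} (f : D.Mot F → D.Mot F') (g : D.Mot F' → D.Mot F)
    {m : ℕ} (hm : 0 < m) (hr : ∀ M, D.Retract m M (g (f M))) {A : Set (D.Mot F')} (hA : A.Finite) :
    {M | f M ∈ A}.Finite := by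
  refine (hA.biUnion fun N _ => h.finite_retract F (g N) m hm).subset fun M hM => ?_
  exact Set.mem_biUnion hM (hr M)

/-- `h^r + h^{w-r}` -/
def hypH (w : ℤ) (h : ℤ → ℕ) (r : ℤ) : ℕ := h r + h (w - r)

/-- `h^r + h^{r-1}` -/
def tensH (h : ℤ → ℕ) (r : ℤ) : ℕ := h r + h (r - 1)

lemma eff_hyp {w : ℤ} {h : ℤ → ℕ} (he : Eff w h) : Eff w (hypH w h) :=
  ⟨he.1, fun r hr => by
    unfold hypH
    rw [he.2 r hr, he.2 (w - r) (by omega)]⟩

lemma eff_tens {w : ℤ} {h : ℤ → ℕ} (he : Eff w h) : Eff (w + 1) (tensH h) :=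
  ⟨by have := he.1; omega, fun r hr => by
    unfold tensH
    rw [he.2 r (by omega), he.2 (r - 1) (by omega)]⟩

lemma finite_base (hD : IsSetting D) {F F' : D.Fld} (i : D.Le F F') {w : ℤ} {h : ℤ → ℕ}
    {S : Finset ℕ} (h1 : (Cls D F' w h S).Finite) : (Cls D F w h S).Finite := by
  obtain ⟨m, hm, hr⟩ := hD.base_retract F F' i
  refine (finite_of (h := hD) (D.base i) (D.res i) hm hr h1).subset ?_
  rintro M ⟨h2, h3, h4⟩
  exact ⟨(hD.base_wt _ _ i M).trans h2, (hD.base_hodge _ _ i M).trans h3, hD.base_good _ _ i S M h4⟩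

lemma finite_mono (hD : IsSetting D) {F : D.Fld} {w : ℤ} {h : ℤ → ℕ}
    {S S' : Finset ℕ} (hS : S ⊆ S') (h1 : (Cls D F w h S').Finite) : (Cls D F w h S).Finite :=
  h1.subset fun M hM => ⟨hM.1, hM.2.1, hD.good_mono F S S' M hS hM.2.2⟩

lemma finite_tens (hD : IsSetting D) {F : D.Fld} {w : ℤ} {h : ℤ → ℕ}
    {S : Finset ℕ} (hS : 11 ∈ S) (h1 : (Cls D F (w + 1) (tensH h) S).Finite) :
    (Cls D F w h S).Finite := by
  refine (finite_of (h := hD) D.tens D.cotens two_pos (hD.tens_retract F) h1).subset ?_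
  rintro M ⟨h2, h3, h4⟩
  refine ⟨by rw [hD.tens_wt, h2], funext fun r => ?_, hD.tens_good F S M hS h4⟩
  rw [hD.tens_hodge, h3]
  rfl

lemma finite_hyp (hD : IsSetting D) {F : D.Fld} {w : ℤ} {h : ℤ → ℕ} {S : Finset ℕ}
    {P : D.Mot F → Prop} (hP : ∀ M, P (D.hyp M))
    (h1 : {M | M ∈ Cls D F w (hypH w h) S ∧ P M}.Finite) : (Cls D F w h S).Finite := by
  refine (finite_of (h := hD) D.hyp id one_pos (hD.hyp_retract F) h1).subset ?_
  rintro M ⟨h2, h3, h4⟩
  refine ⟨⟨(hD.hyp_wt F M).trans h2, funext fun r => ?_, hD.hyp_good F S M h4⟩, hP M⟩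
  rw [hD.hyp_hodge, h3, h2]
  rfl

/-- **Finiteness of pure integral motives: unimodular motives suffice.** See the explanations above. -/
theorem result (hD : IsSetting D) (F₀ : D.Fld) (S₀ : Finset ℕ) : List.TFAE [
    Q1 D,
    ∀ (F : D.Fld) (w : ℤ) (h : ℤ → ℕ) (S : Finset ℕ), D.Le F₀ F → S₀ ⊆ S → Even w → Eff w h →
      {M | M ∈ Cls D F w h S ∧ D.Sym M}.Finite,
    ∀ (F : D.Fld) (w : ℤ) (h : ℤ → ℕ) (S : Finset ℕ), D.Le F₀ F → S₀ ⊆ S → Odd w → Eff w h →
      {M | M ∈ Cls D F w h S ∧ D.Alt M}.Finite] := by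
  tfae_have 1 → 2 := fun h1 F w h S _ _ _ he => (h1 F w h S he).subset fun M hM => hM.1
  tfae_have 1 → 3 := fun h1 F w h S _ _ _ he => (h1 F w h S he).subset fun M hM => hM.1
  tfae_have 2 → 1 := by
    intro h2 F w h S he
    obtain ⟨F', i, h3⟩ := hD.directed F F₀
    have hS : S ⊆ insert 11 (S ∪ S₀) := fun x hx => by simp [hx]
    have hS₀ : S₀ ⊆ insert 11 (S ∪ S₀) := fun x hx => by simp [hx]
    refine finite_mono hD hS (finite_base hD i ?_)
    rcases Int.even_or_odd w with hw | hw
    · exact finite_hyp hD (hD.hyp_sym F') (h2 F' w _ _ h3 hS₀ hw (eff_hyp he))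
    · refine finite_tens hD (by simp) ?_
      exact finite_hyp hD (hD.hyp_sym F') (h2 F' _ _ _ h3 hS₀ hw.add_one (eff_hyp (eff_tens he)))
  tfae_have 3 → 1 := by
    intro h2 F w h S he
    obtain ⟨F', i, h3⟩ := hD.directed F F₀
    have hS : S ⊆ insert 11 (S ∪ S₀) := fun x hx => by simp [hx]
    have hS₀ : S₀ ⊆ insert 11 (S ∪ S₀) := fun x hx => by simp [hx]
    refine finite_mono hD hS (finite_base hD i ?_)
    rcases Int.even_or_odd w with hw | hw
    · refine finite_tens hD (by simp) ?_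
      exact finite_hyp hD (hD.hyp_alt F') (h2 F' _ _ _ h3 hS₀ hw.add_one (eff_hyp (eff_tens he)))
    · exact finite_hyp hD (hD.hyp_alt F') (h2 F' w _ _ h3 hS₀ hw (eff_hyp he))
  tfae_finish

end Pool.Agent.Results.MP_78e9a5_nt.UnimodularMotives
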